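import Mathlib

/-!
Signs of elements of the field with two elements, orthogonality.
-/

namespace Pool.Agent.TRL

open Finset

variable {ι : Type*} [Fintype ι] [DecidableEq ι]

/-- The sign of an element of the field with two elements. -/
noncomputable def sg (x : ZMod 2) : ℝ := if x = 0 then 1 else -1

theorem sg_zero : sg 0 = 1 := by simp [sg]

theorem sg_one : sg 1 = -1 := by simp [sg]

theorem zmod2_cases (x : ZMod 2) : x = 0 ∨ x = 1 := by
  fin_cases x
  · left; rfl
  · right; rfl

theorem zmod2_ne_zero {x : ZMod 2} : x ≠ 0 ↔ x = 1 := by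
  rcases zmod2_cases x with rfl | rfl <;> simp

theorem zmod2_add_self (x : ZMod 2) : x + x = 0 := CharTwo.add_self_eq_zero x

theorem sg_add (x y : ZMod 2) : sg (x + y) = sg x * sg y := by
  rcases zmod2_cases x with rfl | rfl <;> rcases zmod2_cases y with rfl | rfl
  · simp [sg_zero]
  · simp [sg_zero]
  · simp [sg_zero]
  · rw [zmod2_add_self, sg_zero, sg_one]; norm_num

theorem sg_sum {κ : Type*} (s : Finset κ) (f : κ → ZMod 2) :
    sg (∑ i ∈ s, f i) = ∏ i ∈ s, sg (f i) := by
  classical
  induction s using Finset.induction_on with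
  | empty => simp [sg_zero]
  | insert a s ha ih => rw [Finset.sum_insert ha, Finset.prod_insert ha, sg_add, ih]

theorem abs_sg (x : ZMod 2) : |sg x| = 1 := by
  unfold sg; split_ifs <;> simp

theorem univ_zmod2 : (Finset.univ : Finset (ZMod 2)) = {0, 1} := by decide

theorem sum_zmod2 (f : ZMod 2 → ℝ) : ∑ x, f x = f 0 + f 1 := by
  rw [univ_zmod2, Finset.sum_insert (by decide), Finset.sum_singleton]

theorem sum_sg_mul (y : ZMod 2) : ∑ x : ZMod 2, sg (x * y) = if y = 0 then 2 else 0 := by
  rw [sum_zmod2]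
  rcases zmod2_cases y with rfl | rfl
  · simp [sg_zero]; norm_num
  · simp [sg_zero, sg_one]

/-- The vectors supported in `I`. -/
def VI (I : Finset ι) : Finset (ι → ZMod 2) :=
  Fintype.piFinset fun i => if i ∈ I then Finset.univ else {0}

theorem mem_VI {I : Finset ι} {v : ι → ZMod 2} : v ∈ VI I ↔ ∀ i, i ∉ I → v i = 0 := by
  unfold VI
  rw [Fintype.mem_piFinset]
  constructor
  · intro h i hi
    have := h i
    rw [if_neg hi] at this
    simpa using this
  · intro h i
    by_cases hi : i ∈ I
    · rw [if_pos hi]; exact Finset.mem_univ _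
    · rw [if_neg hi]; simpa using h i hi

/-- Orthogonality of the signs over the vectors supported in `I`. -/
theorem sum_VI_sg (I : Finset ι) (y : ι → ZMod 2) :
    ∑ w ∈ VI I, sg (∑ i, w i * y i) = if ∀ i ∈ I, y i = 0 then (2 : ℝ) ^ I.card else 0 := by
  have h1 : ∀ w : ι → ZMod 2, sg (∑ i, w i * y i) = ∏ i, sg (w i * y i) := fun w => sg_sum _ _
  rw [Finset.sum_congr rfl fun w _ => h1 w]
  unfold VI
  rw [← Finset.prod_univ_sum (fun i => if i ∈ I then Finset.univ else {0})
    (fun i x => sg (x * y i))]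
  have h2 : ∀ i, (∑ x ∈ (if i ∈ I then (Finset.univ : Finset (ZMod 2)) else {0}), sg (x * y i)) =
      if i ∈ I then (if y i = 0 then (2 : ℝ) else 0) else 1 := by
    intro i
    split_ifs with h h'
    · rw [sum_sg_mul, if_pos h']
    · rw [sum_sg_mul, if_neg h']
    · simp [sg_zero]
  rw [Finset.prod_congr rfl fun i _ => h2 i, Finset.prod_ite_mem, Finset.univ_inter]
  split_ifs with h
  · rw [Finset.prod_congr rfl fun i hi => if_pos (h i hi), Finset.prod_const]
  · push Not at h
    obtain ⟨i, hi, hne⟩ := h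
    exact Finset.prod_eq_zero hi (if_neg hne)

/-- Orthogonality of the signs over all vectors. -/
theorem sum_univ_sg (y : ι → ZMod 2) :
    ∑ w : ι → ZMod 2, sg (∑ i, w i * y i) =
      if ∀ i, y i = 0 then (2 : ℝ) ^ Fintype.card ι else 0 := by
  have h := sum_VI_sg (Finset.univ : Finset ι) y
  have hV : VI (Finset.univ : Finset ι) = Finset.univ := by
    ext v; simp [mem_VI]
  rw [hV] at h
  simpa using h

end Pool.Agent.TRL
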