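import Pool.Agent.TRL.Step

/-!
The closed form of the corank chain.
-/

namespace Pool.Agent.TRL

open Finset Filter Topology

/-- The finite products `(1 - 1/2) ... (1 - 2 ^ (-J))`. -/
noncomputable def PJ (J : ℕ) : ℝ := ∏ i ∈ Finset.range J, (1 - (1 / 2) ^ (i + 1))

theorem PJ_zero : PJ 0 = 1 := by simp [PJ]

theorem PJ_succ (J : ℕ) : PJ (J + 1) = PJ J * (1 - (1 / 2) ^ (J + 1)) := by
  unfold PJ; rw [Finset.prod_range_succ]

theorem fac_pos (i : ℕ) : (0 : ℝ) < 1 - (1 / 2) ^ (i + 1) := by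
  have : ((1 : ℝ) / 2) ^ (i + 1) < 1 := pow_lt_one₀ (by norm_num) (by norm_num) (by omega)
  linarith

theorem fac_le (i : ℕ) : (1 : ℝ) - (1 / 2) ^ i ≤ 1 := by
  have : (0 : ℝ) ≤ (1 / 2) ^ i := by positivity
  linarith

theorem PJ_pos (J : ℕ) : 0 < PJ J := Finset.prod_pos fun i _ => fac_pos i

theorem PJ_anti_succ (J : ℕ) : PJ (J + 1) ≤ PJ J := by
  rw [PJ_succ]
  exact mul_le_of_le_one_right (PJ_pos J).le (fac_le _)

theorem PJ_anti : Antitone PJ := antitone_nat_of_succ_le PJ_anti_succ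

theorem PJ_le_one (J : ℕ) : PJ J ≤ 1 := by
  rw [← PJ_zero]; exact PJ_anti (Nat.zero_le J)

/-- Lower bound for ratios of the products. -/
theorem PJ_add_ge (J n : ℕ) : PJ J * (1 - ((1 / 2) ^ J - (1 / 2) ^ (J + n))) ≤ PJ (J + n) := by
  induction n with
  | zero => simp
  | succ n ih =>
    rw [← add_assoc, PJ_succ]
    have h1 : 0 ≤ (1 : ℝ) - (1 / 2) ^ (J + n + 1) := (fac_pos _).le
    have h2 := mul_le_mul_of_nonneg_right ih h1
    refine le_trans ?_ h2
    rw [mul_assoc]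
    refine mul_le_mul_of_nonneg_left ?_ (PJ_pos J).le
    have e1 : ((1 : ℝ) / 2) ^ (J + n) = 2 * (1 / 2) ^ (J + n + 1) := by rw [pow_succ]; ring
    have h3 : 0 ≤ ((1 : ℝ) / 2) ^ J - (1 / 2) ^ (J + n) := by
      have : ((1 : ℝ) / 2) ^ (J + n) ≤ (1 / 2) ^ J :=
        pow_le_pow_of_le_one (by norm_num) (by norm_num) (by omega)
      linarith
    have h4 : 0 ≤ ((1 : ℝ) / 2) ^ (J + n + 1) := by positivity
    rw [e1] at h3 ⊢
    nlinarith [mul_nonneg h3 h4]

theorem PJ_add_ge' (J n : ℕ) : PJ J * (1 - (1 / 2) ^ J) ≤ PJ (J + n) := by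
  refine le_trans (mul_le_mul_of_nonneg_left ?_ (PJ_pos J).le) (PJ_add_ge J n)
  have : (0 : ℝ) ≤ (1 / 2) ^ (J + n) := by positivity
  linarith

/-- The limit of the products. -/
noncomputable def Poo : ℝ := ⨅ J, PJ J

theorem PJ_bdd : BddBelow (Set.range PJ) := ⟨0, by rintro _ ⟨J, rfl⟩; exact (PJ_pos J).le⟩

theorem tendsto_PJ : Tendsto PJ atTop (𝓝 Poo) := tendsto_atTop_ciInf PJ_anti PJ_bdd

theorem Poo_le (J : ℕ) : Poo ≤ PJ J := ciInf_le PJ_bdd J

theorem Poo_nonneg : 0 ≤ Poo := le_ciInf fun J => (PJ_pos J).le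

theorem Poo_le_one : Poo ≤ 1 := (Poo_le 0).trans (by rw [PJ_zero])

theorem Poo_ge (J : ℕ) : PJ J * (1 - (1 / 2) ^ J) ≤ Poo := by
  refine le_ciInf fun n => ?_
  rcases le_total n J with h | h
  · refine le_trans (mul_le_of_le_one_right (PJ_pos J).le (fac_le J)) (PJ_anti h)
  · obtain ⟨k, rfl⟩ := Nat.exists_eq_add_of_le h
    exact PJ_add_ge' J k

theorem Poo_pos : 0 < Poo := by
  refine lt_of_lt_of_le ?_ (Poo_ge 1)
  exact mul_pos (PJ_pos 1) (by norm_num)

/-- The probability that the corank chain started at `r` is at zero after `j` steps. -/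
noncomputable def hj (j r : ℕ) : ℝ := if r ≤ j then PJ j ^ 2 / PJ (j - r) else 0

theorem hj_of_le {j r : ℕ} (h : r ≤ j) : hj j r = PJ j ^ 2 / PJ (j - r) := by
  unfold hj; rw [if_pos h]

theorem hj_of_gt {j r : ℕ} (h : j < r) : hj j r = 0 := by
  unfold hj; rw [if_neg (by omega)]

theorem hj_zero_zero : hj 0 0 = 1 := by rw [hj_of_le le_rfl]; simp [PJ_zero]

theorem hj_zero (r : ℕ) : hj 0 r = if r = 0 then 1 else 0 := by
  rcases Nat.eq_zero_or_pos r with rfl | h
  · rw [if_pos rfl, hj_zero_zero]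
  · rw [if_neg (by omega), hj_of_gt h]

theorem hj_nonneg (j r : ℕ) : 0 ≤ hj j r := by
  unfold hj
  split_ifs
  · exact div_nonneg (sq_nonneg _) (PJ_pos _).le
  · exact le_rfl

theorem hj_le_PJ (j r : ℕ) : hj j r ≤ PJ j := by
  rcases le_or_gt r j with h | h
  · rw [hj_of_le h, div_le_iff₀ (PJ_pos _), sq]
    exact mul_le_mul_of_nonneg_left (PJ_anti (Nat.sub_le j r)) (PJ_pos j).le
  · rw [hj_of_gt h]; exact (PJ_pos j).le

theorem hj_le_one (j r : ℕ) : hj j r ≤ 1 := (hj_le_PJ j r).trans (PJ_le_one j)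

theorem hj_succ_right {j r : ℕ} (h : r ≤ j) : hj j (r + 1) = hj j r * (1 - (1 / 2) ^ (j - r)) := by
  rcases Nat.eq_or_lt_of_le h with rfl | h'
  · rw [hj_of_gt (Nat.lt_succ_self r)]; simp
  · rw [hj_of_le (by omega : r + 1 ≤ j), hj_of_le h]
    obtain ⟨k, rfl⟩ : ∃ k, j = r + 1 + k := ⟨j - (r + 1), by omega⟩
    rw [show r + 1 + k - (r + 1) = k by omega, show r + 1 + k - r = k + 1 by omega, PJ_succ]
    have h1 := (PJ_pos k).ne'
    have h2 := (fac_pos k).ne'
    field_simp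

theorem TF_hj (j r : ℕ) : TF (hj j) r = hj (j + 1) r := by
  unfold TF
  rcases Nat.lt_trichotomy r (j + 1) with h | h | h
  · have hr : r ≤ j := by omega
    rw [hj_succ_right hr]
    obtain ⟨k, rfl⟩ : ∃ k, j = r + k := ⟨j - r, by omega⟩
    rw [hj_of_le (by omega : r ≤ r + k + 1), hj_of_le hr, show r + k + 1 - r = k + 1 by omega,
      show r + k - r = k by omega, PJ_succ k, PJ_succ (r + k)]
    have h1 := (PJ_pos k).ne'
    have h2 := (fac_pos k).ne'
    rcases Nat.eq_zero_or_pos r with rfl | hpos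
    · simp only [pow_zero, sub_self, mul_zero, zero_add, Nat.zero_sub]
      field_simp
      ring
    · obtain ⟨s, rfl⟩ : ∃ s, r = s + 1 := ⟨r - 1, by omega⟩
      rw [show s + 1 - 1 = s by omega, hj_of_le (by omega : s ≤ s + 1 + k),
        show s + 1 + k - s = k + 1 by omega, PJ_succ k]
      rw [show (2 * (s + 1) + 1 : ℕ) = (s + 1) + (s + 1) + 1 by ring,
        show (s + 1 + k + 1 : ℕ) = (s + 1) + (k + 1) by ring]
      simp only [pow_add, pow_one]
      set x : ℝ := (1 / 2) ^ s with hx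
      set y : ℝ := (1 / 2) ^ k with hy
      have h2' : 1 - y * (1 / 2) ≠ 0 := by
        have := h2; rw [pow_succ] at this; exact this
      have h2'' : 2 - y ≠ 0 := by
        intro h0; apply h2'; linarith
      field_simp
      ring
  · subst h
    rw [hj_of_gt (Nat.lt_succ_self j), hj_of_gt (by omega : j < j + 1 + 1),
      show j + 1 - 1 = j by omega, hj_of_le le_rfl, hj_of_le le_rfl, PJ_succ j]
    simp only [Nat.sub_self, PJ_zero]
    ring
  · rw [hj_of_gt (by omega : j < r - 1), hj_of_gt (by omega : j < r + 1),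
      hj_of_gt (by omega : j < r), hj_of_gt h]
    ring

/-- The distance of `hj J r` to the limit. -/
theorem abs_hj_sub_Poo (J r : ℕ) : |hj J r - Poo| ≤ 2 ^ r * (1 / 2) ^ J := by
  have h2 : (1 : ℝ) ≤ 2 ^ r := one_le_pow₀ (by norm_num)
  have hJ0 : (0 : ℝ) ≤ (1 / 2) ^ J := by positivity
  have hP1 := PJ_le_one J
  have hP0 := PJ_pos J
  rw [abs_le]
  constructor
  · -- lower bound
    rcases le_or_gt r J with h | h
    · rw [hj_of_le h]
      have h3 : PJ (J - r) * (1 - ((1 / 2) ^ (J - r) - (1 / 2) ^ J)) ≤ PJ J := by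
        have := PJ_add_ge (J - r) r
        rwa [Nat.sub_add_cancel h] at this
      have h4 : PJ J * (1 - ((1 / 2) ^ (J - r) - (1 / 2) ^ J)) ≤ PJ J ^ 2 / PJ (J - r) := by
        rw [le_div_iff₀ (PJ_pos _), sq]
        calc PJ J * (1 - ((1 / 2) ^ (J - r) - (1 / 2) ^ J)) * PJ (J - r)
            = PJ J * (PJ (J - r) * (1 - ((1 / 2) ^ (J - r) - (1 / 2) ^ J))) := by ring
          _ ≤ PJ J * PJ J := mul_le_mul_of_nonneg_left h3 hP0.le
      have h5 : ((1 : ℝ) / 2) ^ (J - r) = 2 ^ r * (1 / 2) ^ J := by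
        obtain ⟨k, rfl⟩ : ∃ k, J = r + k := ⟨J - r, by omega⟩
        rw [show r + k - r = k by omega, pow_add, ← mul_assoc, ← mul_pow]
        norm_num
      have h6 := Poo_le J
      rw [h5] at h4
      nlinarith [mul_nonneg (sub_nonneg.2 hP1) (mul_nonneg (by positivity : (0:ℝ) ≤ 2 ^ r) hJ0),
        mul_nonneg hP0.le hJ0]
    · rw [hj_of_gt h]
      have h5 : (1 : ℝ) ≤ 2 ^ r * (1 / 2) ^ J := by
        obtain ⟨k, rfl⟩ : ∃ k, r = J + k := ⟨r - J, by omega⟩
        rw [pow_add, mul_right_comm, ← mul_pow]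
        norm_num
        exact one_le_pow₀ (by norm_num)
      have := Poo_le_one
      linarith
  · have h3 := hj_le_PJ J r
    have h4 := Poo_ge J
    nlinarith [mul_nonneg hP0.le hJ0, mul_nonneg (sub_nonneg.2 hP1) hJ0,
      mul_nonneg (sub_nonneg.2 h2) hJ0]

end Pool.Agent.TRL
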