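import Pool.Agent.TRL.Border

/-!
Restricted kernels and submatrices.
-/

set_option linter.unusedSectionVars false

namespace Pool.Agent.TRL

open Finset

variable {ι : Type*} [Fintype ι] [DecidableEq ι] {κ : Type*} [Fintype κ] [DecidableEq κ]

/-- Restriction of the restricted kernel on the image of an embedding. -/
theorem rk_map (N : Matrix ι ι (ZMod 2)) (f : κ ↪ ι) :
    rk N (Finset.univ.map f) = rk (N.submatrix f f) Finset.univ := by
  classical
  unfold rk
  symm
  -- extension by zero
  let g : (κ → ZMod 2) → (ι → ZMod 2) := fun v => Function.extend (f : κ → ι) v (fun _ => (0 : ZMod 2))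
  have hgf : ∀ v k, g v (f k) = v k := fun v k => f.injective.extend_apply v _ k
  have hg0 : ∀ v i, i ∉ Finset.univ.map f → g v i = 0 := by
    intro v i hi
    refine Function.extend_apply' v _ i ?_
    rintro ⟨k, rfl⟩
    exact hi (Finset.mem_map_of_mem f (Finset.mem_univ k))
  have hsum : ∀ (a : ι → ZMod 2) (v : ι → ZMod 2), (∀ i, i ∉ Finset.univ.map f → v i = 0) →
      ∑ i, a i * v i = ∑ k, a (f k) * v (f k) := by
    intro a v hv
    rw [← Finset.sum_map Finset.univ f (fun i => a i * v i)]
    symm
    refine Finset.sum_subset (Finset.subset_univ _) fun i _ hi => ?_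
    rw [hv i hi, mul_zero]
  let e : KS (N.submatrix f f) Finset.univ ≃ₗ[ZMod 2] KS N (Finset.univ.map f) :=
    { toFun := fun v => ⟨g v.1, by
        rw [mem_KS]
        refine ⟨fun i hi => hg0 v.1 i hi, fun i hi => ?_⟩
        obtain ⟨k, _, rfl⟩ := Finset.mem_map.1 hi
        rw [hsum _ _ fun i hi => hg0 v.1 i hi]
        have := (mem_KS.1 v.2).2 k (Finset.mem_univ k)
        rw [← this]
        refine Finset.sum_congr rfl fun j _ => ?_
        rw [hgf, Matrix.submatrix_apply]⟩
      map_add' := by
        intro v w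
        apply Subtype.ext
        funext i
        by_cases hi : i ∈ Finset.univ.map f
        · obtain ⟨k, _, rfl⟩ := Finset.mem_map.1 hi
          simp only [Submodule.coe_add, Pi.add_apply, hgf]
        · simp only [Submodule.coe_add, Pi.add_apply, hg0 _ i hi, add_zero]
      map_smul' := by
        intro c v
        apply Subtype.ext
        funext i
        by_cases hi : i ∈ Finset.univ.map f
        · obtain ⟨k, _, rfl⟩ := Finset.mem_map.1 hi
          simp only [Submodule.coe_smul, Pi.smul_apply, hgf, RingHom.id_apply]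
        · simp only [Submodule.coe_smul, Pi.smul_apply, hg0 _ i hi, RingHom.id_apply, smul_zero]
      invFun := fun v => ⟨fun k => v.1 (f k), by
        rw [mem_KS]
        refine ⟨fun i hi => absurd (Finset.mem_univ i) hi, fun i _ => ?_⟩
        have h1 := (mem_KS.1 v.2).2 (f i) (Finset.mem_map_of_mem f (Finset.mem_univ i))
        rw [hsum _ _ (mem_KS.1 v.2).1] at h1
        exact h1⟩
      left_inv := by
        intro v
        apply Subtype.ext
        funext k
        exact hgf v.1 k
      right_inv := by
        intro v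
        apply Subtype.ext
        funext i
        by_cases hi : i ∈ Finset.univ.map f
        · obtain ⟨k, _, rfl⟩ := Finset.mem_map.1 hi
          exact hgf _ k
        · show g _ i = v.1 i
          rw [hg0 _ i hi, (mem_KS.1 v.2).1 i hi] }
  exact e.finrank_eq

/-- The corank of a square matrix over the field with two elements. -/
noncomputable def crk (N : Matrix ι ι (ZMod 2)) : ℕ := rk N Finset.univ

theorem crk_congr_ker {N N' : Matrix ι ι (ZMod 2)}
    (h : ∀ v : ι → ZMod 2, (∀ i, ∑ k, N i k * v k = 0) ↔ ∀ i, ∑ k, N' i k * v k = 0) :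
    crk N = crk N' := by
  unfold crk rk
  have : KS N Finset.univ = KS N' Finset.univ := by
    ext v
    rw [mem_KS, mem_KS]
    refine and_congr (by simp) ?_
    have := h v
    simpa using this
  rw [this]

theorem crk_submatrix_equiv (N : Matrix ι ι (ZMod 2)) (e : κ ≃ ι) :
    crk (N.submatrix e e) = crk N := by
  unfold crk
  have h := rk_map N e.toEmbedding
  rw [Finset.univ_map_equiv_to_embedding] at h
  rw [h]
  rfl

/-- The number of elements of the kernel. -/
theorem card_ker (N : Matrix ι ι (ZMod 2)) :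
    (Finset.univ.filter fun v : ι → ZMod 2 => ∀ i, ∑ k, N i k * v k = 0).card = 2 ^ crk N := by
  classical
  unfold crk
  rw [← card_KF]
  congr 1
  ext v
  rw [Finset.mem_filter, mem_KF, mem_KS]
  simp

theorem crk_eq_zero_iff (N : Matrix ι ι (ZMod 2)) : crk N = 0 ↔ N.det = 1 := by
  classical
  have hdet : N.det = 1 ↔ N.det ≠ 0 := by
    rw [zmod2_ne_zero]
  have h1 : N.det ≠ 0 ↔ ∀ v : ι → ZMod 2, N.mulVec v = 0 → v = 0 := by
    rw [not_iff_comm, ← Matrix.exists_mulVec_eq_zero_iff]
    push Not
    constructor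
    · rintro ⟨v, h, hne⟩; exact ⟨v, hne, h⟩
    · rintro ⟨v, hne, h⟩; exact ⟨v, h, hne⟩
  rw [hdet, h1]
  have h2 := card_ker N
  have h3 : ∀ v : ι → ZMod 2, (∀ i, ∑ k, N i k * v k = 0) ↔ N.mulVec v = 0 := by
    intro v
    rw [funext_iff]
    rfl
  constructor
  · intro h v hv
    rw [h, pow_zero, Finset.card_eq_one] at h2
    obtain ⟨a, ha⟩ := h2
    have hv' : v ∈ Finset.univ.filter fun v : ι → ZMod 2 => ∀ i, ∑ k, N i k * v k = 0 :=
      Finset.mem_filter.2 ⟨Finset.mem_univ v, (h3 v).2 hv⟩
    have h0' : (0 : ι → ZMod 2) ∈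
        Finset.univ.filter fun v : ι → ZMod 2 => ∀ i, ∑ k, N i k * v k = 0 :=
      Finset.mem_filter.2 ⟨Finset.mem_univ 0, fun i => by simp⟩
    rw [ha, Finset.mem_singleton] at hv' h0'
    rw [hv', h0']
  · intro h
    have h4 : (Finset.univ.filter fun v : ι → ZMod 2 => ∀ i, ∑ k, N i k * v k = 0) = {0} := by
      ext v
      rw [Finset.mem_filter, Finset.mem_singleton]
      constructor
      · rintro ⟨_, hv⟩; exact h v ((h3 v).1 hv)
      · rintro rfl; exact ⟨Finset.mem_univ 0, fun i => by simp⟩
    rw [h4, Finset.card_singleton] at h2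
    by_contra hne
    have : 2 ≤ 2 ^ crk N := by
      calc 2 = 2 ^ 1 := by norm_num
        _ ≤ 2 ^ crk N := Nat.pow_le_pow_right (by norm_num) (by omega)
    omega

end Pool.Agent.TRL
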