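import Pool.Agent.TRL.Kern

/-!
The dimension of the restricted kernel after bordering by one index.
-/

set_option linter.unusedSectionVars false

namespace Pool.Agent.TRL

open Finset

variable {ι : Type*} [Fintype ι] [DecidableEq ι]

open Classical in
/-- Intersecting with the kernel of a functional. -/
theorem finrank_inf_ker (W : Submodule (ZMod 2) (ι → ZMod 2))
    (φ : (ι → ZMod 2) →ₗ[ZMod 2] ZMod 2) :
    Module.finrank (ZMod 2) (W ⊓ LinearMap.ker φ : Submodule (ZMod 2) (ι → ZMod 2)) +
      (if ∃ w ∈ W, φ w ≠ 0 then 1 else 0) = Module.finrank (ZMod 2) W := by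
  have h1 := LinearMap.finrank_range_add_finrank_ker (φ.domRestrict W)
  have h2 : Module.finrank (ZMod 2) (LinearMap.ker (φ.domRestrict W)) =
      Module.finrank (ZMod 2) (W ⊓ LinearMap.ker φ : Submodule (ZMod 2) (ι → ZMod 2)) := by
    have h3 : (LinearMap.ker (φ.domRestrict W)).map W.subtype = W ⊓ LinearMap.ker φ := by
      ext v
      simp only [Submodule.mem_map, LinearMap.mem_ker, LinearMap.domRestrict_apply,
        Submodule.subtype_apply, Submodule.mem_inf]
      constructor
      · rintro ⟨y, hy, rfl⟩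
        exact ⟨y.2, hy⟩
      · rintro ⟨hv, hv'⟩
        exact ⟨⟨v, hv⟩, hv', rfl⟩
    rw [← h3]
    exact (LinearEquiv.finrank_eq (Submodule.equivMapOfInjective _
      (Submodule.injective_subtype W) _))
  rw [h2] at h1
  split_ifs with h
  · obtain ⟨w, hw, hne⟩ := h
    have h4 : Module.finrank (ZMod 2) (LinearMap.range (φ.domRestrict W)) = 1 := by
      have h5 : LinearMap.range (φ.domRestrict W) = ⊤ := by
        rw [LinearMap.range_eq_top]
        intro y
        refine ⟨(y * (φ w)⁻¹) • ⟨w, hw⟩, ?_⟩
        rw [map_smul, LinearMap.domRestrict_apply, smul_eq_mul, mul_assoc,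
          inv_mul_cancel₀ hne, mul_one]
      rw [h5, finrank_top, Module.finrank_self]
    omega
  · push Not at h
    have h4 : Module.finrank (ZMod 2) (LinearMap.range (φ.domRestrict W)) = 0 := by
      have h5 : LinearMap.range (φ.domRestrict W) = ⊥ := by
        rw [LinearMap.range_eq_bot]
        ext ⟨w, hw⟩
        rw [LinearMap.domRestrict_apply, LinearMap.zero_apply]
        exact h w hw
      rw [h5, finrank_bot]
    omega

/-- The vectors supported in `insert z I` killed by the rows in `I`. -/
def KW (N : Matrix ι ι (ZMod 2)) (I : Finset ι) (z : ι) : Submodule (ZMod 2) (ι → ZMod 2) where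
  carrier := {v | (∀ i, i ∉ insert z I → v i = 0) ∧ ∀ i ∈ I, ∑ k, N i k * v k = 0}
  add_mem' := by
    rintro a b ⟨ha, ha'⟩ ⟨hb, hb'⟩
    refine ⟨fun i hi => by simp [ha i hi, hb i hi], fun i hi => ?_⟩
    simp only [Pi.add_apply, mul_add, Finset.sum_add_distrib, ha' i hi, hb' i hi, add_zero]
  zero_mem' := by
    refine ⟨fun i _ => rfl, fun i _ => by simp⟩
  smul_mem' := by
    rintro c a ⟨ha, ha'⟩
    refine ⟨fun i hi => by simp [ha i hi], fun i hi => ?_⟩
    have : ∑ k, N i k * (c • a) k = c * ∑ k, N i k * a k := by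
      rw [Finset.mul_sum]
      refine Finset.sum_congr rfl fun k _ => ?_
      simp only [Pi.smul_apply, smul_eq_mul]; ring
    rw [this, ha' i hi, mul_zero]

theorem mem_KW {N : Matrix ι ι (ZMod 2)} {I : Finset ι} {z : ι} {v : ι → ZMod 2} :
    v ∈ KW N I z ↔ (∀ i, i ∉ insert z I → v i = 0) ∧ ∀ i ∈ I, ∑ k, N i k * v k = 0 := Iff.rfl

/-- The functional given by the row `z`. -/
def rowF (N : Matrix ι ι (ZMod 2)) (z : ι) : (ι → ZMod 2) →ₗ[ZMod 2] ZMod 2 where
  toFun v := ∑ k, N z k * v k
  map_add' a b := by simp only [Pi.add_apply, mul_add, Finset.sum_add_distrib]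
  map_smul' c a := by
    simp only [Pi.smul_apply, smul_eq_mul, RingHom.id_apply, Finset.mul_sum]
    exact Finset.sum_congr rfl fun k _ => by ring

theorem rowF_apply (N : Matrix ι ι (ZMod 2)) (z : ι) (v : ι → ZMod 2) :
    rowF N z v = ∑ k, N z k * v k := rfl

theorem KS_eq_inf_proj (N : Matrix ι ι (ZMod 2)) (I : Finset ι) {z : ι} (hz : z ∉ I) :
    KS N I = KW N I z ⊓ LinearMap.ker (LinearMap.proj z : (ι → ZMod 2) →ₗ[ZMod 2] ZMod 2) := by
  ext v
  rw [Submodule.mem_inf, mem_KS, mem_KW, LinearMap.mem_ker, LinearMap.proj_apply]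
  constructor
  · rintro ⟨h1, h2⟩
    exact ⟨⟨fun i hi => h1 i fun hi' => hi (Finset.mem_insert_of_mem hi'), h2⟩, h1 z hz⟩
  · rintro ⟨⟨h1, h2⟩, h3⟩
    refine ⟨fun i hi => ?_, h2⟩
    by_cases hiz : i = z
    · rw [hiz, h3]
    · exact h1 i fun hi' => (Finset.mem_insert.1 hi').elim hiz hi

theorem KS_insert_eq_inf (N : Matrix ι ι (ZMod 2)) (I : Finset ι) (z : ι) :
    KS N (insert z I) = KW N I z ⊓ LinearMap.ker (rowF N z) := by
  ext v
  rw [Submodule.mem_inf, mem_KS, mem_KW, LinearMap.mem_ker, rowF_apply]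
  constructor
  · rintro ⟨h1, h2⟩
    exact ⟨⟨h1, fun i hi => h2 i (Finset.mem_insert_of_mem hi)⟩,
      h2 z (Finset.mem_insert_self z I)⟩
  · rintro ⟨⟨h1, h2⟩, h3⟩
    refine ⟨h1, fun i hi => ?_⟩
    rcases Finset.mem_insert.1 hi with rfl | hi
    · exact h3
    · exact h2 i hi

/-- The condition `A`: the column is in the range. -/
theorem exists_KW_iff (N : Matrix ι ι (ZMod 2)) (I : Finset ι) {z : ι} (hz : z ∉ I) :
    (∃ w ∈ KW N I z, w z ≠ 0) ↔ Sol N I fun i => N i z := by
  constructor
  · rintro ⟨w, hw, hne⟩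
    have hw1 : w z = 1 := zmod2_ne_zero.1 hne
    rw [mem_KW] at hw
    refine ⟨Function.update w z 0, fun i hi => ?_, fun i hi => ?_⟩
    · by_cases hiz : i = z
      · rw [hiz, Function.update_self]
      · rw [Function.update_of_ne hiz]
        exact hw.1 i fun h => (Finset.mem_insert.1 h).elim hiz hi
    · have h1 := hw.2 i hi
      rw [← Finset.add_sum_erase _ _ (Finset.mem_univ z)] at h1 ⊢
      rw [Function.update_self, mul_zero, zero_add]
      rw [hw1, mul_one] at h1
      have h2 : ∑ x ∈ Finset.univ.erase z, N i x * Function.update w z 0 x =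
          ∑ x ∈ Finset.univ.erase z, N i x * w x := by
        refine Finset.sum_congr rfl fun x hx => ?_
        rw [Function.update_of_ne (Finset.ne_of_mem_erase hx)]
      rw [h2]
      exact (CharTwo.add_eq_zero.1 h1).symm
  · rintro ⟨x, hx, hx'⟩
    have hxz : x z = 0 := hx z hz
    refine ⟨Function.update x z 1, ?_, ?_⟩
    · rw [mem_KW]
      refine ⟨fun i hi => ?_, fun i hi => ?_⟩
      · have hiz : i ≠ z := fun h => hi (h ▸ Finset.mem_insert_self z I)
        rw [Function.update_of_ne hiz]
        exact hx i fun h => hi (Finset.mem_insert_of_mem h)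
      · rw [← Finset.add_sum_erase _ _ (Finset.mem_univ z), Function.update_self, mul_one]
        have h2 : ∑ y ∈ Finset.univ.erase z, N i y * Function.update x z 1 y =
            ∑ y, N i y * x y := by
          rw [← Finset.add_sum_erase _ _ (Finset.mem_univ z), hxz, mul_zero, zero_add]
          refine Finset.sum_congr rfl fun y hy => ?_
          rw [Function.update_of_ne (Finset.ne_of_mem_erase hy)]
        rw [h2, hx' i hi, zmod2_add_self]
    · rw [Function.update_self]; exact one_ne_zero

/-- Toggle the diagonal entry at `z`. -/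
def tog (z : ι) (N : Matrix ι ι (ZMod 2)) : Matrix ι ι (ZMod 2) :=
  fun i k => N i k + if i = z ∧ k = z then 1 else 0

theorem tog_row (z : ι) (N : Matrix ι ι (ZMod 2)) (v : ι → ZMod 2) :
    ∑ k, tog z N z k * v k = (∑ k, N z k * v k) + v z := by
  unfold tog
  simp only [true_and, add_mul, Finset.sum_add_distrib]
  congr 1
  rw [Finset.sum_eq_single z]
  · simp
  · intro b _ hb; simp [hb]
  · intro h; exact absurd (Finset.mem_univ z) h

theorem tog_of_ne (z : ι) (N : Matrix ι ι (ZMod 2)) {i k : ι} (h : i ≠ z) :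
    tog z N i k = N i k := by
  unfold tog; simp [h]

theorem KW_tog (N : Matrix ι ι (ZMod 2)) (I : Finset ι) {z : ι} (hz : z ∉ I) :
    KW (tog z N) I z = KW N I z := by
  ext v
  rw [mem_KW, mem_KW]
  refine and_congr Iff.rfl (forall_congr' fun i => forall_congr' fun hi => ?_)
  have hiz : i ≠ z := fun h => hz (h ▸ hi)
  rw [Finset.sum_congr rfl fun k _ => by rw [tog_of_ne z N hiz]]

open Classical in
/-- Dimension of the bordered restricted kernel. -/
theorem rk_insert (N : Matrix ι ι (ZMod 2)) (I : Finset ι) {z : ι} (hz : z ∉ I) :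
    rk N (insert z I) + (if ∃ w ∈ KW N I z, rowF N z w ≠ 0 then 1 else 0) =
      rk N I + (if Sol N I fun i => N i z then 1 else 0) := by
  have h1 := finrank_inf_ker (KW N I z) (rowF N z)
  have h2 := finrank_inf_ker (KW N I z) (LinearMap.proj z : (ι → ZMod 2) →ₗ[ZMod 2] ZMod 2)
  rw [← KS_insert_eq_inf] at h1
  rw [← KS_eq_inf_proj N I hz] at h2
  have h3 : (∃ w ∈ KW N I z, (LinearMap.proj z : (ι → ZMod 2) →ₗ[ZMod 2] ZMod 2) w ≠ 0) ↔
      Sol N I fun i => N i z := exists_KW_iff N I hz
  simp only [h3] at h2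
  unfold rk
  rw [h1, h2]

/-- Bordering by one index raises the dimension by at most one. -/
theorem rk_insert_le (N : Matrix ι ι (ZMod 2)) (I : Finset ι) (z : ι) :
    rk N (insert z I) ≤ rk N I + 1 := by
  classical
  by_cases hz : z ∈ I
  · rw [Finset.insert_eq_of_mem hz]; omega
  · have := rk_insert N I hz
    split_ifs at this <;> omega

theorem rk_union_le (N : Matrix ι ι (ZMod 2)) (I S : Finset ι) :
    rk N (S ∪ I) ≤ rk N I + S.card := by
  classical
  induction S using Finset.induction_on with
  | empty => simp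
  | insert a s ha ih =>
    rw [Finset.insert_union, Finset.card_insert_of_notMem ha]
    have := rk_insert_le N (s ∪ I) a
    omega

open Classical in
/-- The average over the diagonal entry of a function of the dimension after bordering. -/
theorem avg_tog (F : ℕ → ℝ) (N : Matrix ι ι (ZMod 2)) (I : Finset ι) {z : ι} (hz : z ∉ I) :
    F (rk N (insert z I)) + F (rk (tog z N) (insert z I)) =
      if Sol N I (fun i => N i z) then
        (if ∀ k ∈ KS N I, ∑ i, k i * N z i = 0 then F (rk N I + 1) + F (rk N I)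
          else 2 * F (rk N I))
      else (if ∀ k ∈ KS N I, ∑ i, k i * N z i = 0 then 2 * F (rk N I)
        else 2 * F (rk N I - 1)) := by
  have e1 := rk_insert N I hz
  have e2 := rk_insert (tog z N) I hz
  rw [KW_tog N I hz] at e2
  have hrk : rk (tog z N) I = rk N I := by
    unfold rk
    rw [rk_congr (N := tog z N) (N' := N) fun i hi k _ =>
      tog_of_ne z N fun h => hz (h ▸ hi)]
  have hsol : (Sol (tog z N) I fun i => tog z N i z) ↔ Sol N I fun i => N i z := by
    rw [← exists_KW_iff (tog z N) I hz, ← exists_KW_iff N I hz, KW_tog N I hz]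
  rw [hrk] at e2
  simp only [hsol] at e2
  have hB : (∀ k ∈ KS N I, ∑ i, k i * N z i = 0) ↔ ∀ k ∈ KS N I, rowF N z k = 0 := by
    refine forall_congr' fun k => forall_congr' fun _ => ?_
    rw [rowF_apply, Finset.sum_congr rfl fun i _ => mul_comm (k i) (N z i)]
  simp only [hB]
  have hKW : ∀ k ∈ KS N I, k ∈ KW N I z := by
    intro k hk
    rw [KS_eq_inf_proj N I hz] at hk
    exact (Submodule.mem_inf.1 hk).1
  have hz0 : ∀ k ∈ KS N I, k z = 0 := fun k hk => (mem_KS.1 hk).1 z hz
  have htog : ∀ v : ι → ZMod 2, rowF (tog z N) z v = rowF N z v + v z := fun v => by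
    rw [rowF_apply, rowF_apply, tog_row]
  have hKS : ∀ w ∈ KW N I z, w z = 0 → w ∈ KS N I := by
    intro w hw h0
    rw [KS_eq_inf_proj N I hz]
    exact Submodule.mem_inf.2 ⟨hw, h0⟩
  by_cases hA : Sol N I fun i => N i z
  · rw [if_pos hA] at e1 e2 ⊢
    by_cases hb : ∀ k ∈ KS N I, rowF N z k = 0
    · rw [if_pos hb]
      obtain ⟨v0, hv0, hv0z⟩ := (exists_KW_iff N I hz).2 hA
      have hv01 : v0 z = 1 := zmod2_ne_zero.1 hv0z
      -- every element of `KW` with nonzero `z` coordinate has the same row value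
      have hrow : ∀ w ∈ KW N I z, rowF N z w = if w z = 0 then 0 else rowF N z v0 := by
        intro w hw
        split_ifs with h
        · exact hb w (hKS w hw h)
        · have hw1 : w z = 1 := zmod2_ne_zero.1 h
          have hmem : w + v0 ∈ KS N I := by
            refine hKS _ ((KW N I z).add_mem hw hv0) ?_
            rw [Pi.add_apply, hw1, hv01, zmod2_add_self]
          have := hb _ hmem
          rw [map_add] at this
          exact CharTwo.add_eq_zero.1 this
      rcases zmod2_cases (rowF N z v0) with h0 | h1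
      · have hc1 : ¬ ∃ w ∈ KW N I z, rowF N z w ≠ 0 := by
          push Not
          intro w hw
          rw [hrow w hw]
          split_ifs
          · rfl
          · exact h0
        have hc2 : ∃ w ∈ KW N I z, rowF (tog z N) z w ≠ 0 := by
          refine ⟨v0, hv0, ?_⟩
          rw [htog, h0, hv01, zero_add]; exact one_ne_zero
        rw [if_neg hc1, add_zero] at e1
        rw [if_pos hc2] at e2
        have e2' : rk (tog z N) (insert z I) = rk N I := by omega
        rw [e1, e2']
      · have hc1 : ∃ w ∈ KW N I z, rowF N z w ≠ 0 := by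
          refine ⟨v0, hv0, ?_⟩
          rw [h1]; exact one_ne_zero
        have hc2 : ¬ ∃ w ∈ KW N I z, rowF (tog z N) z w ≠ 0 := by
          push Not
          intro w hw
          rw [htog, hrow w hw]
          split_ifs with h
          · rw [h, add_zero]
          · rw [h1, zmod2_ne_zero.1 h, zmod2_add_self]
        rw [if_pos hc1] at e1
        rw [if_neg hc2, add_zero] at e2
        have e1' : rk N (insert z I) = rk N I := by omega
        rw [e2, e1', add_comm]
    · rw [if_neg hb]
      push Not at hb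
      obtain ⟨k, hk, hkne⟩ := hb
      have hc1 : ∃ w ∈ KW N I z, rowF N z w ≠ 0 := ⟨k, hKW k hk, hkne⟩
      have hc2 : ∃ w ∈ KW N I z, rowF (tog z N) z w ≠ 0 := by
        refine ⟨k, hKW k hk, ?_⟩
        rw [htog, hz0 k hk, add_zero]; exact hkne
      rw [if_pos hc1] at e1
      rw [if_pos hc2] at e2
      have e1' : rk N (insert z I) = rk N I := by omega
      have e2' : rk (tog z N) (insert z I) = rk N I := by omega
      rw [e1', e2']; ring
  · rw [if_neg hA] at e1 e2 ⊢
    have hall : ∀ w ∈ KW N I z, w z = 0 := by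
      intro w hw
      by_contra h
      exact hA ((exists_KW_iff N I hz).1 ⟨w, hw, h⟩)
    by_cases hb : ∀ k ∈ KS N I, rowF N z k = 0
    · rw [if_pos hb]
      have hc1 : ¬ ∃ w ∈ KW N I z, rowF N z w ≠ 0 := by
        push Not
        exact fun w hw => hb w (hKS w hw (hall w hw))
      have hc2 : ¬ ∃ w ∈ KW N I z, rowF (tog z N) z w ≠ 0 := by
        push Not
        intro w hw
        rw [htog, hall w hw, add_zero]
        exact hb w (hKS w hw (hall w hw))
      rw [if_neg hc1] at e1
      rw [if_neg hc2] at e2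
      have e1' : rk N (insert z I) = rk N I := by omega
      have e2' : rk (tog z N) (insert z I) = rk N I := by omega
      rw [e1', e2']; ring
    · rw [if_neg hb]
      push Not at hb
      obtain ⟨k, hk, hkne⟩ := hb
      have hc1 : ∃ w ∈ KW N I z, rowF N z w ≠ 0 := ⟨k, hKW k hk, hkne⟩
      have hc2 : ∃ w ∈ KW N I z, rowF (tog z N) z w ≠ 0 := by
        refine ⟨k, hKW k hk, ?_⟩
        rw [htog, hz0 k hk, add_zero]; exact hkne
      rw [if_pos hc1] at e1
      rw [if_pos hc2] at e2
      have e1' : rk N (insert z I) = rk N I - 1 := by omega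
      have e2' : rk (tog z N) (insert z I) = rk N I - 1 := by omega
      rw [e1', e2']; ring

end Pool.Agent.TRL
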