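import Pool.Agent.TRL.Sgn

/-!
Restricted kernels of matrices over the field with two elements.
-/

set_option linter.unusedSectionVars false

namespace Pool.Agent.TRL

open Finset

variable {ι : Type*} [Fintype ι] [DecidableEq ι]

/-- The kernel of the principal submatrix of `N` on the index set `I`, extended by zero. -/
def KS (N : Matrix ι ι (ZMod 2)) (I : Finset ι) : Submodule (ZMod 2) (ι → ZMod 2) where
  carrier := {v | (∀ i, i ∉ I → v i = 0) ∧ ∀ i ∈ I, ∑ k, N i k * v k = 0}
  add_mem' := by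
    rintro a b ⟨ha, ha'⟩ ⟨hb, hb'⟩
    refine ⟨fun i hi => by simp [ha i hi, hb i hi], fun i hi => ?_⟩
    simp only [Pi.add_apply, mul_add, Finset.sum_add_distrib, ha' i hi, hb' i hi, add_zero]
  zero_mem' := by
    refine ⟨fun i _ => rfl, fun i _ => by simp⟩
  smul_mem' := by
    rintro c a ⟨ha, ha'⟩
    refine ⟨fun i hi => by simp [ha i hi], fun i hi => ?_⟩
    have : ∑ k, N i k * (c • a) k = c * ∑ k, N i k * a k := by
      rw [Finset.mul_sum]
      refine Finset.sum_congr rfl fun k _ => ?_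
      simp only [Pi.smul_apply, smul_eq_mul]; ring
    rw [this, ha' i hi, mul_zero]

theorem mem_KS {N : Matrix ι ι (ZMod 2)} {I : Finset ι} {v : ι → ZMod 2} :
    v ∈ KS N I ↔ (∀ i, i ∉ I → v i = 0) ∧ ∀ i ∈ I, ∑ k, N i k * v k = 0 := Iff.rfl

/-- The dimension of the restricted kernel. -/
noncomputable def rk (N : Matrix ι ι (ZMod 2)) (I : Finset ι) : ℕ :=
  Module.finrank (ZMod 2) (KS N I)

/-- The restricted kernel as a finite set. -/
noncomputable def KF (N : Matrix ι ι (ZMod 2)) (I : Finset ι) : Finset (ι → ZMod 2) := by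
  classical exact Finset.univ.filter fun v => v ∈ KS N I

theorem mem_KF {N : Matrix ι ι (ZMod 2)} {I : Finset ι} {v : ι → ZMod 2} :
    v ∈ KF N I ↔ v ∈ KS N I := by
  classical
  unfold KF
  simp

theorem card_KF (N : Matrix ι ι (ZMod 2)) (I : Finset ι) : (KF N I).card = 2 ^ rk N I := by
  classical
  have h1 : Nat.card (KS N I) = Nat.card (ZMod 2) ^ rk N I := Module.natCard_eq_pow_finrank
  have h2 : Nat.card (KS N I) = (KF N I).card := by
    rw [Nat.subtype_card (KF N I) (fun v => by rw [mem_KF])]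
  rw [← h2, h1, Nat.card_zmod]

theorem rk_congr {N N' : Matrix ι ι (ZMod 2)} {I : Finset ι}
    (h : ∀ i ∈ I, ∀ k ∈ I, N i k = N' i k) : KS N I = KS N' I := by
  have key : ∀ (A B : Matrix ι ι (ZMod 2)), (∀ i ∈ I, ∀ k ∈ I, A i k = B i k) →
      KS A I ≤ KS B I := by
    intro A B hAB v hv
    rw [mem_KS] at hv ⊢
    refine ⟨hv.1, fun i hi => ?_⟩
    rw [← hv.2 i hi]
    refine Finset.sum_congr rfl fun k _ => ?_
    by_cases hk : k ∈ I
    · rw [hAB i hi k hk]
    · rw [hv.1 k hk, mul_zero, mul_zero]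
  exact le_antisymm (key N N' h) (key N' N fun i hi k hk => (h i hi k hk).symm)

/-- The bilinear sum. -/
theorem sum_VI_bilin (N : Matrix ι ι (ZMod 2)) (I : Finset ι) :
    ∑ v ∈ VI I, ∑ w ∈ VI I, sg (∑ i, w i * ∑ k, N i k * v k) =
      (2 : ℝ) ^ I.card * (KF N I).card := by
  classical
  rw [Finset.sum_congr rfl fun v _ => sum_VI_sg I fun i => ∑ k, N i k * v k]
  rw [← Finset.sum_filter, Finset.sum_const, nsmul_eq_mul, mul_comm]
  congr 2
  congr 1
  ext v
  rw [Finset.mem_filter, mem_VI, mem_KF, mem_KS]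

theorem sum_mul_comm (N : Matrix ι ι (ZMod 2)) (v w : ι → ZMod 2) :
    ∑ i, w i * ∑ k, N i k * v k = ∑ k, v k * ∑ i, N i k * w i := by
  simp only [Finset.mul_sum]
  rw [Finset.sum_comm]
  refine Finset.sum_congr rfl fun k _ => Finset.sum_congr rfl fun i _ => by ring

/-- The transposed matrix has a restricted kernel of the same dimension. -/
theorem rk_transpose (N : Matrix ι ι (ZMod 2)) (I : Finset ι) : rk N.transpose I = rk N I := by
  have h1 := sum_VI_bilin N I
  have h2 := sum_VI_bilin N.transpose I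
  rw [Finset.sum_comm] at h1
  have h3 : ∑ v ∈ VI I, ∑ w ∈ VI I, sg (∑ i, w i * ∑ k, N.transpose i k * v k) =
      ∑ y ∈ VI I, ∑ x ∈ VI I, sg (∑ i, y i * ∑ k, N i k * x k) := by
    refine Finset.sum_congr rfl fun v _ => Finset.sum_congr rfl fun w _ => ?_
    rw [sum_mul_comm N w v]
    rfl
  rw [h3, h1] at h2
  have h4 : ((KF N I).card : ℝ) = (KF N.transpose I).card :=
    mul_left_cancel₀ (by positivity) h2
  have h5 : (KF N I).card = (KF N.transpose I).card := by exact_mod_cast h4
  rw [card_KF, card_KF] at h5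
  exact (Nat.pow_right_injective le_rfl h5).symm

/-- Solvability of the restricted linear system. -/
def Sol (N : Matrix ι ι (ZMod 2)) (I : Finset ι) (α : ι → ZMod 2) : Prop :=
  ∃ x : ι → ZMod 2, (∀ i, i ∉ I → x i = 0) ∧ ∀ i ∈ I, ∑ k, N i k * x k = α i

open Classical in
/-- A sum of signs over a submodule. -/
theorem sum_KF_sg (N : Matrix ι ι (ZMod 2)) (I : Finset ι) (α : ι → ZMod 2) :
    ∑ w ∈ KF N I, sg (∑ i, w i * α i) =
      if ∀ w ∈ KS N I, ∑ i, w i * α i = 0 then (2 : ℝ) ^ rk N I else 0 := by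
  classical
  split_ifs with h
  · rw [Finset.sum_congr rfl fun w hw => by rw [h w (mem_KF.1 hw), sg_zero]]
    rw [Finset.sum_const, nsmul_eq_mul, mul_one, card_KF]
    push_cast
    ring
  · push Not at h
    obtain ⟨w0, hw0, hne⟩ := h
    have hne' : ∑ i, w0 i * α i = 1 := zmod2_ne_zero.1 hne
    have h1 : ∑ w ∈ KF N I, sg (∑ i, w i * α i) = ∑ w ∈ KF N I, sg (∑ i, (w + w0) i * α i) := by
      refine Finset.sum_bij' (fun w _ => w + w0) (fun w _ => w + w0) ?_ ?_ ?_ ?_ ?_
      · intro w hw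
        exact mem_KF.2 ((KS N I).add_mem (mem_KF.1 hw) hw0)
      · intro w hw
        exact mem_KF.2 ((KS N I).add_mem (mem_KF.1 hw) hw0)
      · intro w _
        ext i; simp only [Pi.add_apply]; rw [add_assoc, zmod2_add_self, add_zero]
      · intro w _
        ext i; simp only [Pi.add_apply]; rw [add_assoc, zmod2_add_self, add_zero]
      · intro w _
        congr 1
        refine Finset.sum_congr rfl fun i _ => ?_
        simp only [Pi.add_apply]; rw [add_assoc, zmod2_add_self, add_zero]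
    have h2 : ∑ w ∈ KF N I, sg (∑ i, (w + w0) i * α i) = - ∑ w ∈ KF N I, sg (∑ i, w i * α i) := by
      rw [← Finset.sum_neg_distrib]
      refine Finset.sum_congr rfl fun w _ => ?_
      have : ∑ i, (w + w0) i * α i = (∑ i, w i * α i) + ∑ i, w0 i * α i := by
        rw [← Finset.sum_add_distrib]
        exact Finset.sum_congr rfl fun i _ => by simp only [Pi.add_apply]; ring
      rw [this, hne', sg_add, sg_one]; ring
    linarith

/-- The restricted system is solvable exactly when the right hand side is orthogonal to the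
restricted kernel of the transposed matrix. -/
theorem sol_iff (N : Matrix ι ι (ZMod 2)) (I : Finset ι) (α : ι → ZMod 2) :
    Sol N I α ↔ ∀ w ∈ KS N.transpose I, ∑ i, w i * α i = 0 := by
  classical
  have hT : ∀ w ∈ VI I, (∑ x ∈ VI I, sg (∑ i, w i * ∑ k, N i k * x k)) =
      if w ∈ KF N.transpose I then (2 : ℝ) ^ I.card else 0 := by
    intro w hw
    rw [Finset.sum_congr rfl fun x _ => by rw [sum_mul_comm N x w]]
    rw [sum_VI_sg I fun k => ∑ i, N i k * w i]
    refine if_congr ?_ rfl rfl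
    rw [mem_KF, mem_KS]
    rw [mem_VI] at hw
    exact ⟨fun h => ⟨hw, h⟩, fun h => h.2⟩
  -- count the solutions
  have hcount : (2 : ℝ) ^ I.card *
      ((VI I).filter fun x => ∀ i ∈ I, ∑ k, N i k * x k = α i).card =
      (2 : ℝ) ^ I.card * ∑ w ∈ KF N.transpose I, sg (∑ i, w i * α i) := by
    have h1 : ∀ x ∈ VI I, (∑ w ∈ VI I, sg (∑ i, w i * ((∑ k, N i k * x k) + α i))) =
        if ∀ i ∈ I, ∑ k, N i k * x k = α i then (2 : ℝ) ^ I.card else 0 := by
      intro x _
      rw [sum_VI_sg I fun i => (∑ k, N i k * x k) + α i]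
      refine if_congr (forall_congr' fun i => forall_congr' fun _ => ?_) rfl rfl
      exact CharTwo.add_eq_zero
    have h2 : ∑ x ∈ VI I, ∑ w ∈ VI I, sg (∑ i, w i * ((∑ k, N i k * x k) + α i)) =
        (2 : ℝ) ^ I.card * ((VI I).filter fun x => ∀ i ∈ I, ∑ k, N i k * x k = α i).card := by
      rw [Finset.sum_congr rfl h1, ← Finset.sum_filter, Finset.sum_const, nsmul_eq_mul, mul_comm]
    rw [← h2, Finset.sum_comm]
    have h3 : ∀ w ∈ VI I, (∑ x ∈ VI I, sg (∑ i, w i * ((∑ k, N i k * x k) + α i))) =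
        if w ∈ KF N.transpose I then (2 : ℝ) ^ I.card * sg (∑ i, w i * α i) else 0 := by
      intro w hw
      have h4 : ∀ x : ι → ZMod 2, sg (∑ i, w i * ((∑ k, N i k * x k) + α i)) =
          sg (∑ i, w i * ∑ k, N i k * x k) * sg (∑ i, w i * α i) := by
        intro x
        rw [← sg_add, ← Finset.sum_add_distrib]
        congr 1
        exact Finset.sum_congr rfl fun i _ => by ring
      rw [Finset.sum_congr rfl fun x _ => h4 x, ← Finset.sum_mul, hT w hw]
      split_ifs <;> ring
    rw [Finset.sum_congr rfl h3, ← Finset.sum_filter, Finset.mul_sum]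
    refine Finset.sum_congr ?_ fun _ _ => rfl
    ext w
    rw [Finset.mem_filter]
    refine ⟨fun h => h.2, fun h => ⟨mem_VI.2 (mem_KS.1 (mem_KF.1 h)).1, h⟩⟩
  have hcount' := mul_left_cancel₀ (by positivity) hcount
  rw [sum_KF_sg] at hcount'
  constructor
  · rintro ⟨x, hx, hx'⟩
    by_contra hcon
    rw [if_neg hcon] at hcount'
    have : ((VI I).filter fun x => ∀ i ∈ I, ∑ k, N i k * x k = α i).card = 0 := by
      exact_mod_cast hcount'
    rw [Finset.card_eq_zero] at this
    have hmem : x ∈ (VI I).filter fun x => ∀ i ∈ I, ∑ k, N i k * x k = α i :=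
      Finset.mem_filter.2 ⟨mem_VI.2 hx, hx'⟩
    rw [this] at hmem
    exact absurd hmem (Finset.notMem_empty x)
  · intro h
    rw [if_pos h] at hcount'
    have hpos : (0 : ℝ) < ((VI I).filter fun x => ∀ i ∈ I, ∑ k, N i k * x k = α i).card := by
      rw [hcount']; positivity
    have hpos' : 0 < ((VI I).filter fun x => ∀ i ∈ I, ∑ k, N i k * x k = α i).card := by
      exact_mod_cast hpos
    obtain ⟨x, hx⟩ := Finset.card_pos.1 hpos'
    rw [Finset.mem_filter, mem_VI] at hx
    exact ⟨x, hx.1, hx.2⟩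

end Pool.Agent.TRL
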