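import Pool.Agent.TRL.Border

/-!
The law of one step: bordering by a random row and column.
-/

set_option linter.unusedSectionVars false

namespace Pool.Agent.TRL

open Finset

variable {ι : Type*} [Fintype ι] [DecidableEq ι]

/-- The averaging operator of the corank chain. -/
noncomputable def TF (F : ℕ → ℝ) (r : ℕ) : ℝ :=
  (1 - (1 / 2) ^ r) ^ 2 * F (r - 1) + (1 / 2) ^ (2 * r + 1) * F (r + 1) +
    (1 - (1 - (1 / 2) ^ r) ^ 2 - (1 / 2) ^ (2 * r + 1)) * F r

theorem step_law {P : Type*} [Fintype P] (N : P → Matrix ι ι (ZMod 2))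
    (N0 : Matrix ι ι (ZMod 2)) (I : Finset ι) {z : ι} (hz : z ∉ I)
    (hN : ∀ p, ∀ i ∈ I, ∀ k ∈ I, N p i k = N0 i k)
    (hgen : ∀ l ∈ KS N0.transpose I, ∀ k ∈ KS N0 I, (l ≠ 0 ∨ k ≠ 0) →
      ∑ p, sg ((∑ i, l i * N p i z) + ∑ i, k i * N p z i) = 0) (F : ℕ → ℝ) :
    ∑ p, (F (rk (N p) (insert z I)) + F (rk (tog z (N p)) (insert z I))) / 2 =
      Fintype.card P * TF F (rk N0 I) := by
  classical
  set r := rk N0 I with hr
  have hrT : rk N0.transpose I = r := rk_transpose N0 I
  have hrN : ∀ p, rk (N p) I = r := fun p => by unfold rk at hr ⊢; rw [rk_congr (hN p), hr]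
  have hKS : ∀ p, KS (N p) I = KS N0 I := fun p => rk_congr (hN p)
  have hKST : ∀ p, KS (N p).transpose I = KS N0.transpose I := fun p =>
    rk_congr fun i hi k hk => hN p k hk i hi
  set a : P → ℝ := fun p => if Sol (N p) I (fun i => N p i z) then 1 else 0 with ha
  set b : P → ℝ := fun p => if ∀ k ∈ KS N0 I, ∑ i, k i * N p z i = 0 then 1 else 0 with hb
  have hpt : ∀ p, (F (rk (N p) (insert z I)) + F (rk (tog z (N p)) (insert z I))) / 2 =
      F (r - 1) * (1 - a p - b p + a p * b p) +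
        F r * (a p + b p - 3 / 2 * (a p * b p)) + F (r + 1) * (1 / 2 * (a p * b p)) := by
    intro p
    rw [avg_tog F (N p) I hz, hrN p, hKS p]
    by_cases h1 : Sol (N p) I (fun i => N p i z)
    · by_cases h2 : ∀ k ∈ KS N0 I, ∑ i, k i * N p z i = 0
      · rw [if_pos h1, if_pos h2]
        simp only [ha, hb]
        rw [if_pos h1, if_pos h2]; ring
      · rw [if_pos h1, if_neg h2]
        simp only [ha, hb]
        rw [if_pos h1, if_neg h2]; ring
    · by_cases h2 : ∀ k ∈ KS N0 I, ∑ i, k i * N p z i = 0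
      · rw [if_neg h1, if_pos h2]
        simp only [ha, hb]
        rw [if_neg h1, if_pos h2]; ring
      · rw [if_neg h1, if_neg h2]
        simp only [ha, hb]
        rw [if_neg h1, if_neg h2]; ring
  have h2r : (2 : ℝ) ^ r ≠ 0 := by positivity
  have haS : ∀ p, a p * 2 ^ r = ∑ l ∈ KF N0.transpose I, sg (∑ i, l i * N p i z) := by
    intro p
    rw [sum_KF_sg, hrT]
    have : Sol (N p) I (fun i => N p i z) ↔
        ∀ w ∈ KS N0.transpose I, ∑ i, w i * N p i z = 0 := by
      rw [sol_iff, hKST p]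
    simp only [ha, this]
    split_ifs <;> ring
  have hbS : ∀ p, b p * 2 ^ r = ∑ k ∈ KF N0 I, sg (∑ i, k i * N p z i) := by
    intro p
    rw [sum_KF_sg]
    simp only [hb]
    rw [← hr]
    split_ifs <;> ring
  have h0T : (0 : ι → ZMod 2) ∈ KF N0.transpose I := mem_KF.2 (KS N0.transpose I).zero_mem
  have h0 : (0 : ι → ZMod 2) ∈ KF N0 I := mem_KF.2 (KS N0 I).zero_mem
  have hsumA : (∑ p, a p) * 2 ^ r = Fintype.card P := by
    rw [Finset.sum_mul, Finset.sum_congr rfl fun p _ => haS p, Finset.sum_comm,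
      Finset.sum_eq_single_of_mem _ h0T]
    · simp [sg_zero]
    · intro l hl hl0
      have := hgen l (mem_KF.1 hl) 0 (KS N0 I).zero_mem (Or.inl hl0)
      simpa using this
  have hsumB : (∑ p, b p) * 2 ^ r = Fintype.card P := by
    rw [Finset.sum_mul, Finset.sum_congr rfl fun p _ => hbS p, Finset.sum_comm,
      Finset.sum_eq_single_of_mem _ h0]
    · simp [sg_zero]
    · intro k hk hk0
      have := hgen 0 (KS N0.transpose I).zero_mem k (mem_KF.1 hk) (Or.inr hk0)
      simpa using this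
  have hsumAB : (∑ p, a p * b p) * (2 ^ r * 2 ^ r) = Fintype.card P := by
    have h3 : ∀ p, a p * b p * (2 ^ r * 2 ^ r) =
        ∑ l ∈ KF N0.transpose I, ∑ k ∈ KF N0 I,
          sg ((∑ i, l i * N p i z) + ∑ i, k i * N p z i) := by
      intro p
      have : a p * b p * (2 ^ r * 2 ^ r) = (a p * 2 ^ r) * (b p * 2 ^ r) := by ring
      rw [this, haS p, hbS p, Finset.sum_mul_sum]
      refine Finset.sum_congr rfl fun l _ => Finset.sum_congr rfl fun k _ => ?_
      rw [sg_add]
    rw [Finset.sum_mul, Finset.sum_congr rfl fun p _ => h3 p, Finset.sum_comm,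
      Finset.sum_eq_single_of_mem _ h0T]
    · rw [Finset.sum_comm, Finset.sum_eq_single_of_mem _ h0]
      · simp [sg_zero]
      · intro k hk hk0
        exact hgen 0 (KS N0.transpose I).zero_mem k (mem_KF.1 hk) (Or.inr hk0)
    · intro l hl hl0
      rw [Finset.sum_comm]
      refine Finset.sum_eq_zero fun k hk => ?_
      exact hgen l (mem_KF.1 hl) k (mem_KF.1 hk) (Or.inl hl0)
  rw [Finset.sum_congr rfl fun p _ => hpt p]
  simp only [Finset.sum_add_distrib, ← Finset.mul_sum, Finset.sum_sub_distrib]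
  have hA : ∑ p, a p = Fintype.card P * (1 / 2) ^ r := by
    rw [one_div, inv_pow, ← div_eq_mul_inv, eq_div_iff h2r]; exact hsumA
  have hB : ∑ p, b p = Fintype.card P * (1 / 2) ^ r := by
    rw [one_div, inv_pow, ← div_eq_mul_inv, eq_div_iff h2r]; exact hsumB
  have hAB : ∑ p, a p * b p = Fintype.card P * ((1 / 2) ^ r * (1 / 2) ^ r) := by
    rw [one_div, inv_pow, ← mul_inv, ← div_eq_mul_inv, eq_div_iff (mul_ne_zero h2r h2r)]
    exact hsumAB
  rw [hA, hB, hAB]
  simp only [Finset.sum_const, Finset.card_univ, nsmul_eq_mul, mul_one]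
  unfold TF
  have hp : ((1 : ℝ) / 2) ^ (2 * r + 1) = 1 / 2 * ((1 / 2) ^ r * (1 / 2) ^ r) := by
    rw [pow_succ, two_mul, pow_add]; ring
  rw [hp]
  ring

end Pool.Agent.TRL
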